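import Pool.Agent.H28.NW.Targets

/-!
# Division, for logarithmic windows (row LDQ of the board `nw_modules`)
-/

set_option autoImplicit false

namespace Pool.Agent.H11.NW

open Finset Pool.Agent.H6.N4D Pool.Agent.H28.NW

/-- LDQ -/
theorem pf_LDQ (h : Pool.Agent.H70.EN.T_LDQ) : W_LDQ := by
  intro X q f hq hf
  rw [wlg_eq, wlg_eq]
  have h1 := abs_le.1 (h X.hi q f hq hf)
  have h2 := abs_le.1 (h (X.lo - 1) q f hq hf)
  refine abs_le.2 ⟨?_, ?_⟩
  · linarith [h1.1, h2.2]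
  · linarith [h1.2, h2.1]

end Pool.Agent.H11.NW
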